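import Mathlib

/-! Many cyclic Steiner triple systems. -/

set_option autoImplicit false

namespace Pool.Agent.H113Z.STS

open Finset Pointwise

section family

variable {G T : Type} [CommRing G] [Fintype G] [DecidableEq G] [Fintype T]

/-- a difference family of triples covering the elements of order not dividing three -/
structure DF (P : T → Fin 3 → G) : Prop where
  inj : ∀ t p q t' p' q', p ≠ q → p' ≠ q' → P t q - P t p = P t' q' - P t' p' →
    t = t' ∧ p = p' ∧ q = q'
  ne : ∀ t p q, p ≠ q → 3 • (P t q - P t p) ≠ 0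
  surj : ∀ d : G, 3 • d ≠ 0 → ∃ t p q, p ≠ q ∧ P t q - P t p = d

open Classical in
/-- the development of a difference family, with the short orbit -/
noncomputable def dev (P : T → Fin 3 → G) : Finset (Finset G) :=
  univ.filter fun b => (∃ z t, b = univ.image fun p => z + P t p) ∨
    ∃ z h : G, h ≠ 0 ∧ 3 • h = 0 ∧ b = {z, z + h, z - h}

theorem mem_dev {P : T → Fin 3 → G} {b : Finset G} : b ∈ dev P ↔
    (∃ z t, b = univ.image fun p => z + P t p) ∨
    ∃ z h : G, h ≠ 0 ∧ 3 • h = 0 ∧ b = {z, z + h, z - h} := by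
  simp [dev]

theorem dev_shift (P : T → Fin 3 → G) (c : G) {b : Finset G} (hb : b ∈ dev P) :
    b.image (fun x => x + c) ∈ dev P := by
  rw [mem_dev] at hb ⊢
  rcases hb with ⟨z, t, rfl⟩ | ⟨z, h, h1, h2, rfl⟩
  · refine Or.inl ⟨z + c, t, ?_⟩
    rw [image_image]
    congr 1
    funext p
    simp only [Function.comp]
    abel
  · refine Or.inr ⟨z + c, h, h1, h2, ?_⟩
    simp only [image_insert, image_singleton]
    congr 2
    · abel
    · congr 1; abel

omit [Fintype G] [DecidableEq G] in
theorem three {h : G} (h2 : 3 • h = 0) : h + h = -h := by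
  rw [eq_neg_iff_add_eq_zero, ← h2, succ_nsmul, two_nsmul]

theorem dev_card {P : T → Fin 3 → G} (hP : DF P) {b : Finset G} (hb : b ∈ dev P) :
    b.card = 3 := by
  rcases mem_dev.1 hb with ⟨z, t, rfl⟩ | ⟨z, h, h1, h2, rfl⟩
  · rw [card_image_of_injective, card_univ, Fintype.card_fin]
    intro p q e
    by_contra hne
    apply hP.ne t p q hne
    rw [add_left_cancel e, sub_self, smul_zero]
  · rw [card_eq_three]
    refine ⟨_, _, _, fun e => h1 (by simpa using e), fun e => h1 (by simpa using e.symm),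
      fun e => h1 ?_, rfl⟩
    have e2 : h + h = 0 := by linear_combination e
    rw [three h2] at e2
    exact neg_eq_zero.1 e2

omit [Fintype G] in
theorem short {x y z h : G} (h2 : 3 • h = 0) (hxy : x ≠ y)
    (hx : x ∈ ({z, z + h, z - h} : Finset G)) (hy : y ∈ ({z, z + h, z - h} : Finset G)) :
    3 • (y - x) = 0 ∧ ({z, z + h, z - h} : Finset G) = {x, y, x - (y - x)} := by
  have h3 : h + h + h = 0 := by rw [three h2, neg_add_cancel]
  have e1 : z - h - (z + h) = h := by linear_combination -h3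
  have e2 : z + h - (z - h) = -h := by linear_combination h3
  have e3 : z + h + h = z - h := by linear_combination h3
  have e4 : z - h - h = z + h := by linear_combination -h3
  simp only [mem_insert, mem_singleton] at hx hy
  rcases hx with rfl | rfl | rfl <;> rcases hy with rfl | rfl | rfl <;>
    first
    | exact absurd rfl hxy
    | refine ⟨by simp [e1, e2, h2], ?_⟩
      ext u
      simp only [e1, e2, e3, e4, add_sub_cancel_left, sub_sub_cancel_left, sub_neg_eq_add,
        sub_add_cancel_left, sub_sub_cancel, add_sub_cancel_right, sub_add_cancel, mem_insert,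
        mem_singleton] <;> tauto

theorem dev_unique {P : T → Fin 3 → G} (hP : DF P) {x y : G} (hxy : x ≠ y) :
    ∃! b : Finset G, b ∈ dev P ∧ x ∈ b ∧ y ∈ b := by
  have long : ∀ z t, x ∈ (univ.image fun p => z + P t p) → y ∈ (univ.image fun p => z + P t p) →
      ∃ p q, p ≠ q ∧ P t q - P t p = y - x ∧ z = x - P t p := by
    intro z t hx hy
    obtain ⟨p, -, rfl⟩ := mem_image.1 hx
    obtain ⟨q, -, rfl⟩ := mem_image.1 hy
    exact ⟨p, q, fun e => hxy (by rw [e]), by abel, by abel⟩
  by_cases h : 3 • (y - x) = 0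
  · refine ⟨{x, y, x - (y - x)}, ⟨mem_dev.2 (Or.inr ⟨x, y - x, sub_ne_zero.2 hxy.symm, h,
      by rw [add_sub_cancel]⟩), by simp, by simp⟩, ?_⟩
    rintro b ⟨hb, hx, hy⟩
    rcases mem_dev.1 hb with ⟨z, t, rfl⟩ | ⟨z, k, -, h2, rfl⟩
    · obtain ⟨p, q, h1, h2, -⟩ := long z t hx hy
      exact absurd (h2 ▸ h) (hP.ne t p q h1)
    · exact (short h2 hxy hx hy).2
  · obtain ⟨t, p, q, h1, h2⟩ := hP.surj _ h
    refine ⟨univ.image fun r => x - P t p + P t r, ⟨mem_dev.2 (Or.inl ⟨_, t, rfl⟩),
      mem_image.2 ⟨p, mem_univ _, by abel⟩, mem_image.2 ⟨q, mem_univ _, by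
        linear_combination h2⟩⟩, ?_⟩
    rintro b ⟨hb, hx, hy⟩
    rcases mem_dev.1 hb with ⟨z, t', rfl⟩ | ⟨z, k, -, h3, rfl⟩
    · obtain ⟨p', q', k1, k2, rfl⟩ := long z t' hx hy
      obtain ⟨rfl, rfl, -⟩ := hP.inj t p q t' p' q' h1 k1 (h2.trans k2.symm)
      rfl
    · exact absurd (short h3 hxy hx hy).1 h

/-- reverse the base blocks chosen by `F` -/
def flip (P : T → Fin 3 → G) (F : T → Bool) : T → Fin 3 → G :=
  fun t p => if F t then -P t p else P t p

omit [Fintype G] [DecidableEq G] [Fintype T] in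
theorem DF.flip {P : T → Fin 3 → G} (hP : DF P) (F : T → Bool) : DF (flip P F) := by
  have e : ∀ t p q, STS.flip P F t q - STS.flip P F t p
      = if F t then P t p - P t q else P t q - P t p := fun t p q => by
    simp only [STS.flip]
    split_ifs
    · abel
    · rfl
  refine ⟨fun t p q t' p' q' h h' k => ?_, fun t p q h => ?_, fun d hd => ?_⟩
  · rw [e, e] at k
    split_ifs at k with h1 h2 h2
    · obtain ⟨a, b, c⟩ := hP.inj _ _ _ _ _ _ h.symm h'.symm k; exact ⟨a, c, b⟩
    · obtain ⟨rfl, -⟩ := hP.inj _ _ _ _ _ _ h.symm h' k; exact absurd h1 h2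
    · obtain ⟨rfl, -⟩ := hP.inj _ _ _ _ _ _ h h'.symm k; exact absurd h2 h1
    · exact hP.inj _ _ _ _ _ _ h h' k
  · rw [e]
    split_ifs
    · exact hP.ne _ _ _ h.symm
    · exact hP.ne _ _ _ h
  · obtain ⟨t, p, q, h, k⟩ := hP.surj d hd
    by_cases h1 : F t
    · exact ⟨t, q, p, h.symm, by rw [e, if_pos h1, k]⟩
    · exact ⟨t, p, q, h, by rw [e, if_neg h1, k]⟩

theorem flip_aux {P : T → Fin 3 → G} (hP : DF P) {F F' : T → Bool}
    (h : dev (flip P F) = dev (flip P F')) {t : T} (h1 : F t = true) (h2 : F' t = false) :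
    False := by
  have hne : ∀ p q, p ≠ q → P t p ≠ P t q := fun p q k e =>
    hP.ne t p q k (by rw [e, sub_self, smul_zero])
  have b1 : (univ.image fun p => 0 + flip P F' t p) ∈ dev (flip P F) :=
    h ▸ mem_dev.2 (Or.inl ⟨_, _, rfl⟩)
  have b2 : (univ.image fun p => P t 0 + P t 1 + flip P F t p) ∈ dev (flip P F) :=
    mem_dev.2 (Or.inl ⟨_, _, rfl⟩)
  have m1 : ∀ p, P t p ∈ (univ.image fun p => 0 + flip P F' t p) := fun p =>
    mem_image.2 ⟨p, mem_univ _, by simp [flip, h2]⟩
  have := (dev_unique (hP.flip F) (hne 0 1 (by decide))).unique ⟨b1, m1 0, m1 1⟩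
    ⟨b2, mem_image.2 ⟨1, mem_univ _, by simp [flip, h1]⟩,
      mem_image.2 ⟨0, mem_univ _, by simp [flip, h1]⟩⟩
  obtain ⟨p, -, hp⟩ := mem_image.1 (this ▸ m1 2)
  simp only [flip, h1, if_true] at hp
  fin_cases p
  · exact hne 1 2 (by decide) (by simpa using hp)
  · exact hne 0 2 (by decide) (by simpa using hp)
  · have := hP.inj t 0 2 t 2 1 (by decide) (by decide)
      (by simp only [Fin.reduceFinMk] at hp; linear_combination -hp)
    exact absurd this.2.1 (by decide)

theorem flip_injective {P : T → Fin 3 → G} (hP : DF P) :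
    Function.Injective fun F : T → Bool => dev (flip P F) := by
  intro F F' h
  funext t
  cases h1 : F t <;> cases h2 : F' t
  · rfl
  · exact (flip_aux hP h.symm h2 h1).elim
  · exact (flip_aux hP h h1 h2).elim
  · rfl

end family

/-- a structure on the cyclic group has at most `n` isomorphic copies that are shift invariant -/
theorem card_copies {n : ℕ} [NeZero n] {X : Type} [MulAction (Equiv.Perm (ZMod n)) X]
    (x : X) (C : Finset X) (h1 : ∀ y ∈ C, ∃ σ : Equiv.Perm (ZMod n), σ • x = y)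
    (h2 : ∀ y ∈ C, Equiv.addRight (1 : ZMod n) • y = y) : C.card ≤ n := by
  classical
  choose σ hσ using h1
  let S := MulAction.stabilizer (Equiv.Perm (ZMod n)) x
  let s := Equiv.addRight (1 : ZMod n)
  have hact : ∀ (y : C) (g : S), (σ y y.2 * g) • x = y := fun y g => by
    rw [mul_smul, g.2, hσ]
  let f : C × S → ZMod n × S := fun u => ((σ u.1 u.1.2 * u.2)⁻¹ 0,
    ⟨(σ u.1 u.1.2 * u.2)⁻¹ * s * (σ u.1 u.1.2 * u.2), by
      rw [MulAction.mem_stabilizer_iff, mul_smul, mul_smul, hact, h2 _ u.1.2, inv_smul_eq_iff,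
        hact]⟩)
  have key : ∀ a b : Equiv.Perm (ZMod n), a⁻¹ 0 = b⁻¹ 0 → a⁻¹ * s * a = b⁻¹ * s * b → a = b := by
    intro a b k1 k2
    have k3 : ∀ m : ℕ, a⁻¹ (m : ZMod n) = b⁻¹ (m : ZMod n) := by
      intro m
      induction m with
      | zero => simpa using k1
      | succ m ih =>
        have := congrArg (fun g : Equiv.Perm (ZMod n) => g (a⁻¹ m)) k2
        simp only [Equiv.Perm.mul_apply, s, Equiv.coe_addRight] at this
        have r1 : ∀ (c : Equiv.Perm (ZMod n)) (z : ZMod n), c (c⁻¹ z) = z := fun c z => by simp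
        rw [r1, ih, r1] at this
        exact_mod_cast this
    refine inv_injective (Equiv.ext fun z => ?_)
    rw [← ZMod.natCast_zmod_val z, k3]
  have hf : Function.Injective f := by
    rintro ⟨y, g⟩ ⟨y', g'⟩ e
    have e1 := key _ _ (congrArg Prod.fst e) (congrArg (fun u => u.2.1) e)
    have e2 : y = y' := Subtype.ext (by rw [← hact y g, ← hact y' g']; exact congrArg (· • x) e1)
    subst e2
    exact Prod.ext rfl (Subtype.ext (mul_left_cancel e1))
  have := Fintype.card_le_of_injective f hf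
  rw [Fintype.card_prod, Fintype.card_prod, ZMod.card, Fintype.card_coe] at this
  exact Nat.le_of_mul_le_mul_right this Fintype.card_pos

theorem sq_le_two_pow {K : ℕ} (h : 4 ≤ K) : K * K ≤ 2 ^ K := by
  induction K, h using Nat.le_induction with
  | base => norm_num
  | succ K h ih => rw [pow_succ]; nlinarith


end Pool.Agent.H113Z.STS
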