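import Pool.Agent.H113Z.STS.Pelt
import Pool.Agent.H113Z.STS.Family

/-! Cyclic difference families of triples exist. -/

set_option autoImplicit false

namespace Pool.Agent.H113Z.STS

open Finset Pointwise

theorem cast_cases {n x y : ℕ} (hx : x < 2 * n) (hy : y < 2 * n)
    (h : (x : ZMod n) = (y : ZMod n)) : x = y ∨ x = y + n ∨ y = x + n := by
  obtain ⟨c, hc⟩ := ((ZMod.natCast_eq_natCast_iff _ _ _).1 h).dvd
  have h1 : c < 2 := by
    by_contra k
    push Not at k
    nlinarith
  have h2 : -2 < c := by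
    by_contra k
    push Not at k
    nlinarith
  interval_cases c <;> omega

theorem exists_DF {n : ℕ} [NeZero n] (hn : 54 ≤ n) (h : n % 6 = 1 ∨ n % 6 = 3) :
    ∃ P : Fin (n / 6) → Fin 3 → ZMod n, DF P := by
  obtain ⟨B, hB⟩ := exists_good hn h
  let Q : Fin (n / 6) → Fin 3 → ℕ := fun t => ![0, t + 1, t + 1 + B (t + 1)]
  have hG := fun t t' : Fin (n / 6) => hB (t + 1) (t' + 1) (by omega) t.2 (by omega) t'.2
  have hQ : ∀ t p, Q t p < n := fun t p => by
    have := (hG t t).1
    fin_cases p <;> simp [Q] <;> omega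
  have inj : ∀ t p q t' p' q', p ≠ q → p' ≠ q' →
      (Q t q : ZMod n) - Q t p = Q t' q' - Q t' p' → t = t' ∧ p = p' ∧ q = q' := by
    intro t p q t' p' q' k k' e
    have e2 : ((Q t q + Q t' p' : ℕ) : ZMod n) = (Q t' q' + Q t p : ℕ) := by
      push_cast; linear_combination e
    have e3 := cast_cases (by have := hQ t q; have := hQ t' p'; omega)
      (by have := hQ t' q'; have := hQ t p; omega) e2
    have g1 := hG t t'
    have g2 := hG t' t
    rw [Fin.ext_iff]
    fin_cases p <;> fin_cases q <;> fin_cases p' <;> fin_cases q' <;>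
      first
      | exact absurd rfl k
      | exact absurd rfl k'
      | simp [Q] at e3 ⊢
        omega
  have ne : ∀ t p q, p ≠ q → 3 • ((Q t q : ZMod n) - Q t p) ≠ 0 := by
    intro t p q k e
    have e2 : ((3 * Q t q : ℕ) : ZMod n) = (3 * Q t p : ℕ) := by
      rw [nsmul_eq_mul] at e; push_cast at e ⊢; linear_combination e
    obtain ⟨c, hc⟩ := ((ZMod.natCast_eq_natCast_iff _ _ _).1 e2).dvd
    have a1 := hQ t p
    have a2 := hQ t q
    have h1 : c < 3 := by
      by_contra k
      push Not at k
      push_cast at hc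
      nlinarith
    have h2 : -3 < c := by
      by_contra k
      push Not at k
      push_cast at hc
      nlinarith
    have g1 := (hG t t).1
    fin_cases p <;> fin_cases q <;>
      first
      | exact absurd rfl k
      | simp [Q] at hc
        interval_cases c <;> omega
  refine ⟨fun t p => Q t p, inj, ne, fun d hd => ?_⟩
  let I : Finset (Fin (n / 6) × Fin 3 × Fin 3) := univ ×ˢ (univ : Finset (Fin 3)).offDiag
  let f : Fin (n / 6) × Fin 3 × Fin 3 → ZMod n := fun u => Q u.1 u.2.2 - Q u.1 u.2.1
  have hI : ∀ u ∈ I, u.2.1 ≠ u.2.2 := fun u hu => (mem_offDiag.1 (mem_product.1 hu).2).2.2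
  have c1 : (I.image f).card = n / 6 * 6 := by
    rw [card_image_of_injOn]
    · simp [I]
    · intro u hu v hv e
      obtain ⟨a, b, c⟩ := inj _ _ _ _ _ _ (hI u hu) (hI v hv) e
      exact Prod.ext a (Prod.ext b c)
  obtain ⟨H, h1, h2⟩ : ∃ H : Finset (ZMod n), (∀ x ∈ H, 3 • x = 0) ∧ n / 6 * 6 + H.card = n := by
    rcases h with h | h
    · exact ⟨{0}, by simp, by rw [card_singleton]; omega⟩
    · refine ⟨{((0 : ℕ) : ZMod n), ((n / 3 : ℕ) : ZMod n), ((2 * (n / 3) : ℕ) : ZMod n)}, ?_, ?_⟩
      · have : (3 : ZMod n) * (n / 3 : ℕ) = 0 := by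
          have e : ((3 * (n / 3) : ℕ) : ZMod n) = (n : ℕ) := by congr 1; omega
          rw [ZMod.natCast_self] at e
          exact_mod_cast e
        intro x hx
        simp only [mem_insert, mem_singleton] at hx
        rcases hx with rfl | rfl | rfl
        · simp
        · rw [nsmul_eq_mul]; exact_mod_cast this
        · rw [nsmul_eq_mul]; push_cast at this ⊢; linear_combination 2 * this
      · rw [card_eq_three.2 ⟨_, _, _, fun e => ?_, fun e => ?_, fun e => ?_, rfl⟩]
        · omega
        all_goals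
          have := cast_cases (by omega) (by omega) e
          omega
  have hdis : Disjoint (I.image f) H := by
    rw [disjoint_left]
    intro x hx hx2
    obtain ⟨u, hu, rfl⟩ := mem_image.1 hx
    exact ne _ _ _ (hI u hu) (h1 _ hx2)
  have hU : I.image f ∪ H = univ := by
    apply eq_univ_of_card
    rw [card_union_of_disjoint hdis, c1, h2, ZMod.card]
  rcases mem_union.1 (hU ▸ mem_univ d) with k | k
  · obtain ⟨u, hu, e⟩ := mem_image.1 k
    exact ⟨u.1, u.2.1, u.2.2, hI u hu, e⟩
  · exact absurd (h1 d k) hd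


end Pool.Agent.H113Z.STS
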