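import Pool.Agent.H113Z.STS.Exists

/-! Many cyclic Steiner triple systems. -/

set_option autoImplicit false

namespace Pool.Agent.H113Z.STS

open Finset Pointwise

theorem main (M : ℕ) : ∃ N : ℕ, ∀ n : ℕ, N ≤ n → (n % 6 = 1 ∨ n % 6 = 3) →
      ∃ B : Fin M → Finset (Finset (ZMod n)),
        (∀ i, (∀ b ∈ B i, b.card = 3) ∧
          (∀ x y : ZMod n, x ≠ y → ∃! b : Finset (ZMod n), b ∈ B i ∧ x ∈ b ∧ y ∈ b) ∧
          (∀ b ∈ B i, b.image (fun x => x + 1) ∈ B i)) ∧
        (∀ i j, i ≠ j → ¬ ∃ σ : Equiv.Perm (ZMod n),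
          ∀ b : Finset (ZMod n), b ∈ B i ↔ b.map σ.toEmbedding ∈ B j) := by
  classical
  refine ⟨54 + 42 * M, fun n hn h => ?_⟩
  have : NeZero n := ⟨by omega⟩
  obtain ⟨P, hP⟩ := exists_DF (n := n) (by omega) h
  let D : (Fin (n / 6) → Bool) → Finset (Finset (ZMod n)) := fun F => dev (flip P F)
  let cl : Finset (Finset (ZMod n)) → Set (Finset (Finset (ZMod n))) :=
    MulAction.orbit (Equiv.Perm (ZMod n))
  have hs : ∀ F, Equiv.addRight (1 : ZMod n) • D F = D F := by
    intro F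
    apply eq_of_subset_of_card_le
    · intro b hb
      obtain ⟨c, hc, rfl⟩ := mem_smul_finset.1 hb
      exact dev_shift _ 1 hc
    · rw [card_smul_finset]
  have h1 := card_le_mul_card_image (f := cl) (univ.image D) n (by
    intro a ha
    obtain ⟨x, -, rfl⟩ := mem_image.1 ha
    refine card_copies x _ (fun y hy => ?_) (fun y hy => ?_)
    · exact MulAction.orbit_eq_iff.1 (mem_filter.1 hy).2
    · obtain ⟨F, -, rfl⟩ := mem_image.1 (mem_filter.1 hy).1
      exact hs F)
  rw [card_image_of_injective _ (flip_injective hP), card_univ, Fintype.card_fun,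
    Fintype.card_bool, Fintype.card_fin] at h1
  have h2 : M ≤ ((univ.image D).image cl).card := by
    have h3 := sq_le_two_pow (show 4 ≤ n / 6 by omega)
    have h4 : n * M ≤ n / 6 * (n / 6) := by
      have h5 : n ≤ 7 * (n / 6) := by omega
      have h6 : 7 * M ≤ n / 6 := by omega
      nlinarith
    exact Nat.le_of_mul_le_mul_left (h4.trans (h3.trans h1)) (by omega)
  obtain ⟨e⟩ : Nonempty (Fin M ↪ ((univ.image D).image cl)) :=
    Function.Embedding.nonempty_of_card_le (by rwa [Fintype.card_fin, Fintype.card_coe])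
  have h3 : ∀ i, ∃ F, cl (D F) = e i := fun i => by
    obtain ⟨x, hx, k⟩ := mem_image.1 (e i).2
    obtain ⟨F, -, rfl⟩ := mem_image.1 hx
    exact ⟨F, k⟩
  choose F hF using h3
  refine ⟨fun i => D (F i), fun i => ⟨fun b hb => dev_card (hP.flip _) hb,
    fun x y k => dev_unique (hP.flip _) k, fun b hb => dev_shift _ 1 hb⟩, ?_⟩
  rintro i j hij ⟨σ, hσ⟩
  apply hij
  apply e.injective
  apply Subtype.ext
  rw [← hF, ← hF]
  symm
  refine MulAction.orbit_eq_iff.2 ⟨σ, ?_⟩
  ext b
  have e1 : ∀ c : Finset (ZMod n), c.map σ.toEmbedding = σ • c := fun c => by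
    rw [map_eq_image]; rfl
  simp only [e1] at hσ
  rw [← inv_smul_mem_iff, hσ, smul_inv_smul]

end Pool.Agent.H113Z.STS
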