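import Mathlib

/-! Difference triples for cyclic Steiner triple systems (Peltesohn's solution of Heffter's
difference problems). -/

set_option autoImplicit false

namespace Pool.Agent.H113Z.STS

/-- the base blocks `{0, a, a + B a}` for `1 ≤ a ≤ K` have pairwise different differences -/
def Good (n K : ℕ) (B : ℕ → ℕ) : Prop :=
  ∀ a a', 1 ≤ a → a ≤ K → 1 ≤ a' → a' ≤ K →
    (0 < B a ∧ a + B a < n ∧ 3 * a < n ∧ 3 * B a ≠ n ∧ 3 * B a ≠ 2 * n ∧ 3 * (a + B a) ≠ n ∧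
      3 * (a + B a) ≠ 2 * n) ∧
    (a + a' ≠ n ∧ a + B a' ≠ n ∧ a + (a' + B a') ≠ n ∧ B a + B a' ≠ n ∧ B a + (a' + B a') ≠ n ∧
      a + B a + (a' + B a') ≠ n) ∧
    (a ≠ B a' ∧ a ≠ a' + B a' ∧ B a ≠ a' + B a' ∧ (B a = B a' → a = a') ∧
      (a + B a = a' + B a' → a = a'))

theorem good1 (k : ℕ) (hk : 3 ≤ k) : Good (18 * k + 1) (3 * k) fun a =>
    if a = 3 * k then 3 * k + 1 else if a % 3 = 1 then 4 * k + 1 - (a - 1) / 3
    else if a % 3 = 2 then 8 * k - (a - 1) / 3 else 6 * k - 2 * ((a - 1) / 3) - 1 := by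
  intro a a' h1 h2 h3 h4
  dsimp only
  split_ifs <;> omega

theorem good7 (k : ℕ) (hk : 3 ≤ k) : Good (18 * k + 7) (3 * k + 1) fun a =>
    if a = 3 * k + 1 then 4 * k + 2 else if a % 3 = 1 then 8 * k + 3 - (a - 1) / 3
    else if a % 3 = 2 then 6 * k + 1 - 2 * ((a - 1) / 3) else 4 * k + 1 - (a - 1) / 3 := by
  intro a a' h1 h2 h3 h4
  dsimp only
  split_ifs <;> omega

theorem good13 (k : ℕ) (hk : 3 ≤ k) : Good (18 * k + 13) (3 * k + 2) fun a =>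
    if a = 3 * k + 2 then 7 * k + 5 else if a % 3 = 1 then 4 * k + 3 - (a - 1) / 3
    else if a % 3 = 2 then 6 * k + 3 - 2 * ((a - 1) / 3) else 8 * k + 5 - (a - 1) / 3 := by
  intro a a' h1 h2 h3 h4
  dsimp only
  split_ifs <;> omega

theorem good3 (k : ℕ) (hk : 3 ≤ k) : Good (18 * k + 3) (3 * k) fun a =>
    if a % 3 = 1 then 8 * k + 1 - (a - 1) / 3
    else if a % 3 = 2 then 4 * k - (a - 1) / 3 else 6 * k - 2 * ((a - 1) / 3) - 1 := by
  intro a a' h1 h2 h3 h4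
  dsimp only
  split_ifs <;> omega

theorem good9 (k : ℕ) (hk : 3 ≤ k) : Good (18 * k + 9) (3 * k + 1) fun a =>
    if a = 2 then 8 * k + 3 else if a = 3 then 8 * k + 1 else if a = 5 then 8 * k + 2
    else if a + 1 = 3 * k then 3 * k + 2 else if a = 3 * k then 7 * k + 3
    else if a % 3 = 1 then 4 * k + 3 - (a - 1) / 3
    else if a % 3 = 2 then 8 * k + 2 - (a - 1) / 3 else 6 * k + 1 - 2 * ((a - 1) / 3) := by
  intro a a' h1 h2 h3 h4
  dsimp only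
  split_ifs <;> omega

theorem good15 (k : ℕ) (hk : 3 ≤ k) : Good (18 * k + 15) (3 * k + 2) fun a =>
    if a % 3 = 1 then 4 * k + 3 - (a - 1) / 3
    else if a % 3 = 2 then 8 * k + 6 - (a - 1) / 3 else 6 * k + 3 - 2 * ((a - 1) / 3) := by
  intro a a' h1 h2 h3 h4
  dsimp only
  split_ifs <;> omega

theorem exists_good {n : ℕ} (hn : 54 ≤ n) (h : n % 6 = 1 ∨ n % 6 = 3) :
    ∃ B, Good n (n / 6) B := by
  obtain ⟨k, hk⟩ : ∃ k, k = n / 18 := ⟨_, rfl⟩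
  have h3 : 3 ≤ k := by omega
  have : n = 18 * k + 1 ∨ n = 18 * k + 7 ∨ n = 18 * k + 13 ∨ n = 18 * k + 3 ∨ n = 18 * k + 9 ∨
    n = 18 * k + 15 := by omega
  clear hk
  rcases this with rfl | rfl | rfl | rfl | rfl | rfl
  · rw [show (18 * k + 1) / 6 = 3 * k by omega]; exact ⟨_, good1 k h3⟩
  · rw [show (18 * k + 7) / 6 = 3 * k + 1 by omega]; exact ⟨_, good7 k h3⟩
  · rw [show (18 * k + 13) / 6 = 3 * k + 2 by omega]; exact ⟨_, good13 k h3⟩
  · rw [show (18 * k + 3) / 6 = 3 * k by omega]; exact ⟨_, good3 k h3⟩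
  · rw [show (18 * k + 9) / 6 = 3 * k + 1 by omega]; exact ⟨_, good9 k h3⟩
  · rw [show (18 * k + 15) / 6 = 3 * k + 2 by omega]; exact ⟨_, good15 k h3⟩

end Pool.Agent.H113Z.STS
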